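import Pool.Agent.Helper75.PZ.Stmts2

/-! Row GD: leading terms of the operators. -/

set_option autoImplicit false

universe u

namespace Pool.Agent.Helper94.PZ

open Pool.Agent.Helper75.PZ

theorem gd_n1_add (a b : G2) : n1 (a + b) = n1 a + n1 b := rfl

theorem gd_n2_add (a b : G2) : n2 (a + b) = n2 a + n2 b := rfl

section

variable {F M : Type u} [Field F] [Field M] [Algebra F M] {σ : M ≃ₐ[F] M}

theorem gd_neg_ne (k : ℤ) : (-1 : M) ^ k ≠ 0 := zpow_ne_zero _ (neg_ne_zero.2 one_ne_zero)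

theorem gd_order_phi {φ : HS M →ₐ[F] HS M} (hφ : PHI σ φ) {h : HS M} (hh : h ≠ 0) :
    (φ h).order = h.order ∧ (φ h).leadingCoeff = (-1 : M) ^ (n2 h.order) * σ h.leadingCoeff := by
  have h0 : φ h ≠ 0 := (map_ne_zero_iff φ (RingHom.injective (φ : HS M →+* HS M))).2 hh
  have h1 : h.coeff h.order ≠ 0 := fun hc => hh (HahnSeries.coeff_order_eq_zero.1 hc)
  have h2 : (φ h).coeff (φ h).order ≠ 0 := fun hc => h0 (HahnSeries.coeff_order_eq_zero.1 hc)
  have h3 : (φ h).coeff h.order ≠ 0 := by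
    rw [hφ]
    exact mul_ne_zero (gd_neg_ne _) ((map_ne_zero_iff σ σ.injective).2 h1)
  have h4 : h.coeff (φ h).order ≠ 0 := by
    rw [hφ] at h2
    intro hc
    rw [hc, map_zero, mul_zero] at h2
    exact h2 rfl
  have h5 : (φ h).order = h.order :=
    le_antisymm (HahnSeries.order_le_of_coeff_ne_zero h3) (HahnSeries.order_le_of_coeff_ne_zero h4)
  refine ⟨h5, ?_⟩
  rw [HahnSeries.leadingCoeff_eq, h5, hφ, HahnSeries.leadingCoeff_eq]

theorem gd_phi_ne {φ : HS M →ₐ[F] HS M} {h : HS M} (hh : h ≠ 0) : φ h ≠ 0 :=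
  (map_ne_zero_iff φ (RingHom.injective (φ : HS M →+* HS M))).2 hh

theorem gd_iter {φ : HS M →ₐ[F] HS M} (hφ : PHI σ φ) {f : HS M} (hf : f ≠ 0) (l : ℕ) :
    (φ^[l]) f ≠ 0 ∧ ((φ^[l]) f).order = f.order ∧
    ((φ^[l]) f).leadingCoeff = (-1 : M) ^ ((l : ℤ) * n2 f.order) * (σ ^ l) f.leadingCoeff := by
  induction l with
  | zero => refine ⟨hf, rfl, by simp⟩
  | succ l ih =>
    obtain ⟨h1, h2, h3⟩ := ih
    rw [Function.iterate_succ_apply']
    obtain ⟨h4, h5⟩ := gd_order_phi hφ h1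
    refine ⟨gd_phi_ne h1, h4.trans h2, ?_⟩
    rw [h5, h3, h2, map_mul, map_zpow₀, map_neg, map_one, ← mul_assoc,
      ← zpow_add₀ (neg_ne_zero.2 one_ne_zero)]
    congr 1
    · congr 1
      push_cast
      ring
    · rw [pow_succ', AlgEquiv.mul_apply]

theorem gd_psi_order {ψ : HS M →ₐ[F] HS M} (hψ : PSI ψ) {h : HS M} (hh : h ≠ 0) :
    ψ h ≠ 0 ∧ 6 ∣ n1 (ψ h).order := by
  have h0 : ψ h ≠ 0 := gd_phi_ne hh
  refine ⟨h0, ?_⟩
  by_contra hc
  exact h0 (HahnSeries.coeff_order_eq_zero.1 (hψ.2 h _ hc))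

theorem gd_XX_ne : XX M ≠ 0 := by
  unfold XX
  rw [Ne, HahnSeries.single_eq_zero_iff]
  exact one_ne_zero

theorem gd_XX (l : ℕ) : XX M ^ l ≠ 0 ∧ n1 (XX M ^ l).order = l ∧ (XX M ^ l).leadingCoeff = 1 := by
  have hord : (XX M).order = toLex ((1 : ℤ), (0 : ℤ)) := by
    unfold XX
    exact HahnSeries.order_single one_ne_zero
  have hlc : (XX M).leadingCoeff = 1 := by
    unfold XX
    exact HahnSeries.leadingCoeff_of_single
  refine ⟨pow_ne_zero _ gd_XX_ne, ?_, ?_⟩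
  · rw [HahnSeries.order_pow, hord]
    induction l with
    | zero => rfl
    | succ l ih =>
      rw [succ_nsmul, gd_n1_add, ih]
      push_cast
      rfl
  · induction l with
    | zero => rw [pow_zero, HahnSeries.leadingCoeff_one]
    | succ l ih => rw [pow_succ, HahnSeries.leadingCoeff_mul, ih, hlc, mul_one]

/-- Finite sums with one term of least order. -/
theorem gd_sum {ι : Type*} [Fintype ι] (T : ι → HS M) (l0 : ι) (h0 : T l0 ≠ 0)
    (hT : ∀ l, l ≠ l0 → T l = 0 ∨ (T l0).order < (T l).order) :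
    ∑ l, T l ≠ 0 ∧ (∑ l, T l).order = (T l0).order ∧
    (∑ l, T l).leadingCoeff = (T l0).leadingCoeff := by
  classical
  have hlow : ∀ g : G2, g ≤ (T l0).order → ∀ l, l ≠ l0 → (T l).coeff g = 0 := by
    intro g hg l hl
    rcases hT l hl with h | h
    · rw [h, HahnSeries.coeff_zero]
    · exact HahnSeries.coeff_eq_zero_of_lt_order (lt_of_le_of_lt hg h)
  have hc : (∑ l, T l).coeff (T l0).order = (T l0).leadingCoeff := by
    rw [HahnSeries.coeff_sum, Finset.sum_eq_single l0 (fun l _ hl => hlow _ le_rfl l hl)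
      (fun h => absurd (Finset.mem_univ l0) h), HahnSeries.leadingCoeff_eq]
  have hlt : ∀ g : G2, g < (T l0).order → (∑ l, T l).coeff g = 0 := by
    intro g hg
    rw [HahnSeries.coeff_sum]
    refine Finset.sum_eq_zero fun l _ => ?_
    by_cases hl : l = l0
    · rw [hl]; exact HahnSeries.coeff_eq_zero_of_lt_order hg
    · exact hlow g hg.le l hl
  have hne : (T l0).leadingCoeff ≠ 0 := HahnSeries.leadingCoeff_ne_zero.2 h0
  have hS : ∑ l, T l ≠ 0 := by
    intro h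
    rw [h, HahnSeries.coeff_zero] at hc
    exact hne hc.symm
  have ho : (∑ l, T l).order = (T l0).order := by
    refine le_antisymm (HahnSeries.order_le_of_coeff_ne_zero (by rw [hc]; exact hne)) ?_
    by_contra h
    rw [not_le] at h
    exact hS (HahnSeries.coeff_order_eq_zero.1 (hlt _ h))
  exact ⟨hS, ho, by rw [HahnSeries.leadingCoeff_eq, ho, hc]⟩

theorem gd_sigma (hσ : ∀ m, σ (σ (σ m)) = m) (m : ℤ) (l : ℕ) (x : M) :
    (σ ^ (6 * m + (l : ℤ))) x = (σ ^ l) x := by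
  have h3 : σ ^ (3 : ℤ) = 1 := by
    ext x
    have : σ ^ (3 : ℤ) = σ * (σ * σ) := by
      rw [show (3 : ℤ) = ((3 : ℕ) : ℤ) by norm_num, zpow_natCast, pow_succ, pow_two, mul_assoc]
    rw [this]
    exact hσ x
  rw [zpow_add, show 6 * m = 3 * (2 * m) by ring, zpow_mul, h3, one_zpow, one_mul, zpow_natCast]

theorem gd_sign (m n : ℤ) (l : ℕ) :
    (-1 : M) ^ ((6 * m + (l : ℤ)) * n) = (-1 : M) ^ ((l : ℤ) * n) := by
  rw [add_mul, zpow_add₀ (neg_ne_zero.2 one_ne_zero), show 6 * m * n = 2 * (3 * m * n) by ring,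
    zpow_mul, show ((-1 : M) ^ (2 : ℤ)) = 1 by norm_num, one_zpow, one_mul]

end

theorem st_GD : ST_GD.{u} := by
  classical
  intro F M _ _ _ σ φ ψ hφ hψ hσ e he f hf
  obtain ⟨l1, hl1⟩ : ∃ l, e l ≠ 0 := by
    by_contra h
    push Not at h
    exact he (funext h)
  -- the terms
  set T : HS M → Fin 6 → HS M := fun f l => ψ (e l) * XX M ^ (l : ℕ) * (φ^[(l : ℕ)]) f with hTd
  have hT0 : ∀ f l, e l = 0 → T f l = 0 := fun f l h => by
    simp only [hTd, h, map_zero, zero_mul]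
  have hTne : ∀ f : HS M, f ≠ 0 → ∀ l, e l ≠ 0 → T f l ≠ 0 := fun f hf l hl =>
    mul_ne_zero (mul_ne_zero (gd_psi_order hψ hl).1 (gd_XX _).1) (gd_iter hφ hf _).1
  have hord : ∀ f : HS M, f ≠ 0 → ∀ l, e l ≠ 0 →
      (T f l).order = ((ψ (e l)).order + (XX M ^ (l : ℕ)).order) + f.order := by
    intro f hf l hl
    simp only [hTd]
    rw [HahnSeries.order_mul (mul_ne_zero (gd_psi_order hψ hl).1 (gd_XX _).1) (gd_iter hφ hf _).1,
      HahnSeries.order_mul (gd_psi_order hψ hl).1 (gd_XX _).1, (gd_iter hφ hf _).2.1]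
  have hlc : ∀ f : HS M, f ≠ 0 → ∀ l, e l ≠ 0 → (T f l).leadingCoeff =
      (ψ (e l)).leadingCoeff * ((-1 : M) ^ (((l : ℕ) : ℤ) * n2 f.order) *
        (σ ^ (l : ℕ)) f.leadingCoeff) := by
    intro f hf l hl
    simp only [hTd]
    rw [HahnSeries.leadingCoeff_mul, HahnSeries.leadingCoeff_mul, (gd_XX _).2.2, mul_one,
      (gd_iter hφ hf _).2.2]
  -- the orders of the coefficients
  set w : Fin 6 → G2 := fun l => (ψ (e l)).order + (XX M ^ (l : ℕ)).order with hw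
  have hw1 : ∀ l, e l ≠ 0 → ∃ m : ℤ, n1 (w l) = 6 * m + ((l : ℕ) : ℤ) := by
    intro l hl
    obtain ⟨m, hm⟩ := (gd_psi_order hψ hl).2
    refine ⟨m, ?_⟩
    rw [hw]
    change n1 ((ψ (e l)).order + (XX M ^ (l : ℕ)).order) = _
    rw [gd_n1_add, hm, (gd_XX _).2.1]
  have hinj : ∀ l l', e l ≠ 0 → e l' ≠ 0 → w l = w l' → l = l' := by
    intro l l' hl hl' h
    obtain ⟨m, hm⟩ := hw1 l hl
    obtain ⟨m', hm'⟩ := hw1 l' hl'
    rw [h, hm'] at hm
    have h1 := l.2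
    have h2 := l'.2
    ext
    omega
  obtain ⟨l0, hl0, hmin⟩ := Finset.exists_min_image (Finset.univ.filter fun l => e l ≠ 0) w
    ⟨l1, by simpa using hl1⟩
  have hl0' : e l0 ≠ 0 := by simpa using hl0
  have hmin' : ∀ l, e l ≠ 0 → l ≠ l0 → w l0 < w l := by
    intro l hl hne
    refine lt_of_le_of_ne (hmin l (by simpa using hl)) fun h => hne ?_
    exact (hinj l0 l hl0' hl h).symm
  have key : ∀ f : HS M, f ≠ 0 → op φ ψ e f ≠ 0 ∧ (op φ ψ e f).order = w l0 + f.order ∧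
      (op φ ψ e f).leadingCoeff = (ψ (e l0)).leadingCoeff *
        ((-1 : M) ^ (((l0 : ℕ) : ℤ) * n2 f.order) * (σ ^ (l0 : ℕ)) f.leadingCoeff) := by
    intro f hf
    obtain ⟨h1, h2, h3⟩ := gd_sum (T f) l0 (hTne f hf l0 hl0') (fun l hl => by
      by_cases hel : e l = 0
      · exact Or.inl (hT0 f l hel)
      · right
        rw [hord f hf l0 hl0', hord f hf l hel]
        exact add_lt_add_left (hmin' l hel hl) _)
    have hop : op φ ψ e f = ∑ l, T f l := rfl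
    rw [hop]
    exact ⟨h1, h2.trans (hord f hf l0 hl0'), h3.trans (hlc f hf l0 hl0')⟩
  obtain ⟨a1, a2, a3⟩ := key f hf
  obtain ⟨b1, b2, b3⟩ := key 1 one_ne_zero
  rw [HahnSeries.order_one, add_zero] at b2
  have b3' : (op φ ψ e 1).leadingCoeff = (ψ (e l0)).leadingCoeff := by
    rw [b3, HahnSeries.order_one, HahnSeries.leadingCoeff_one, map_one]
    change _ * ((-1 : M) ^ (((l0 : ℕ) : ℤ) * 0) * 1) = _
    rw [mul_zero, zpow_zero, mul_one, mul_one]
  obtain ⟨m, hm⟩ := hw1 l0 hl0'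
  refine ⟨a1, by rw [a2, b2], ?_⟩
  rw [a3, b3', b2, hm, gd_sigma hσ, gd_sign, mul_assoc]

end Pool.Agent.Helper94.PZ
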